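import Mathlib

/-! # MP_50178a_lc: one polynomial is enough for point counting in fixed dimension -/

set_option autoImplicit false

namespace Pool.Agent.Helper28.PCF

open MvPolynomial

/-- the number of common zeros in `F ^ n` of the polynomials `f i` -/
noncomputable def numZeros {F σ ι : Type*} [Field F] (f : ι → MvPolynomial σ F) : ℕ :=
  Nat.card {x : σ → F // ∀ i, eval x (f i) = 0}

/-- the number of zeros of one polynomial -/
noncomputable def numZero {F σ : Type*} [Field F] (g : MvPolynomial σ F) : ℕ :=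
  Nat.card {x : σ → F // eval x g = 0}

/-- `∏ j ∈ S, ∑ i, f_i(x) y_j ^ i`, one polynomial in the `n + k` variables `x`, `y` -/
noncomputable def single {F : Type*} [Field F] {n m : ℕ} (f : Fin m → MvPolynomial (Fin n) F)
    (k : ℕ) (S : Finset (Fin k)) : MvPolynomial (Fin n ⊕ Fin k) F :=
  ∏ j ∈ S, ∑ i : Fin m, rename Sum.inl (f i) * X (Sum.inr j) ^ (i : ℕ)

section
variable {F : Type*} [Field F] {n m : ℕ} (f : Fin m → MvPolynomial (Fin n) F)

theorem totalDegree_single (k d : ℕ) (hd : ∀ i, (f i).totalDegree ≤ d) (S : Finset (Fin k)) :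
    (single f k S).totalDegree ≤ S.card * (d + (m - 1)) := by
  unfold single
  refine (totalDegree_finsetProd _ _).trans ?_
  refine (Finset.sum_le_card_nsmul S _ (d + (m - 1)) ?_).trans (by rw [smul_eq_mul])
  intro j _
  refine totalDegree_finsetSum_le fun i _ => ?_
  refine (totalDegree_mul _ _).trans ?_
  refine add_le_add ((totalDegree_rename_le _ _).trans (hd i)) ?_
  refine (totalDegree_X_pow _ _).le.trans ?_
  have := i.2
  omega

/-- the polynomial `∑ i, f_i(x) T ^ i` -/
noncomputable def up (x : Fin n → F) : Polynomial F :=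
  ∑ i : Fin m, Polynomial.C (eval x (f i)) * Polynomial.X ^ (i : ℕ)

theorem up_coeff (x : Fin n → F) (i : Fin m) : (up f x).coeff i = eval x (f i) := by
  unfold up
  rw [Polynomial.finsetSum_coeff, Finset.sum_eq_single i]
  · simp
  · intro j _ hj
    have : (i : ℕ) ≠ (j : ℕ) := fun h => hj (Fin.ext h.symm)
    simp [Polynomial.coeff_X_pow, this]
  · intro h
    exact absurd (Finset.mem_univ i) h

theorem up_natDegree (x : Fin n → F) : (up f x).natDegree ≤ m - 1 := by
  unfold up
  refine Polynomial.natDegree_sum_le_of_forall_le _ _ fun i _ => ?_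
  refine (Polynomial.natDegree_C_mul_X_pow_le _ _).trans ?_
  have := i.2
  omega

theorem up_eq_zero (x : Fin n → F) : up f x = 0 ↔ ∀ i, eval x (f i) = 0 := by
  constructor
  · intro h i
    rw [← up_coeff, h, Polynomial.coeff_zero]
  · intro h
    unfold up
    simp [h]

theorem eval_single (k : ℕ) (S : Finset (Fin k)) (x : Fin n → F) (y : Fin k → F) :
    eval (Sum.elim x y) (single f k S) = ∏ j ∈ S, (up f x).eval (y j) := by
  unfold single up
  rw [map_prod]
  refine Finset.prod_congr rfl fun j _ => ?_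
  rw [map_sum, Polynomial.eval_finsetSum]
  refine Finset.sum_congr rfl fun i _ => ?_
  rw [map_mul, map_pow, eval_X, eval_rename, Polynomial.eval_mul, Polynomial.eval_pow,
    Polynomial.eval_X, Polynomial.eval_C]
  rfl

end

/-- dual inclusion and exclusion at a point -/
theorem incl_excl (k : ℕ) (hk : 0 < k) (T : Finset (Fin k)) :
    ∑ S ∈ (Finset.univ : Finset (Finset (Fin k))).erase ∅,
      (-1 : ℤ) ^ (S.card + 1) * (if ∃ j ∈ S, j ∈ T then 1 else 0) =
      if T = Finset.univ then 1 else 0 := by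
  classical
  have h1 : ∑ S ∈ (Finset.univ : Finset (Finset (Fin k))).erase ∅,
      (-1 : ℤ) ^ (S.card + 1) * (if ∃ j ∈ S, j ∈ T then 1 else 0) =
      ∑ S ∈ (Finset.univ : Finset (Fin k)).powerset,
      (-1 : ℤ) ^ (S.card + 1) * (if ∃ j ∈ S, j ∈ T then 1 else 0) := by
    rw [Finset.powerset_univ]
    refine Finset.sum_erase _ ?_
    simp
  rw [h1]
  have h2 : ∀ S : Finset (Fin k), (-1 : ℤ) ^ (S.card + 1) * (if ∃ j ∈ S, j ∈ T then 1 else 0) =
      (if S ⊆ Tᶜ then (-1 : ℤ) ^ S.card else 0) - (-1 : ℤ) ^ S.card := by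
    intro S
    by_cases h : S ⊆ Tᶜ
    · rw [if_pos h, if_neg]
      · ring
      · rintro ⟨j, hj, hj'⟩
        exact (Finset.mem_compl.1 (h hj)) hj'
    · rw [if_neg h, if_pos]
      · ring
      · rw [Finset.not_subset] at h
        obtain ⟨j, hj, hj'⟩ := h
        exact ⟨j, hj, by simpa using hj'⟩
  rw [Finset.sum_congr rfl fun S _ => h2 S, Finset.sum_sub_distrib,
    Finset.sum_powerset_neg_one_pow_card, ← Finset.sum_filter]
  have h3 : (Finset.univ : Finset (Fin k)).powerset.filter (fun S => S ⊆ Tᶜ) = Tᶜ.powerset := by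
    ext S
    simp
  rw [h3, Finset.sum_powerset_neg_one_pow_card]
  have h4 : (Finset.univ : Finset (Fin k)) ≠ ∅ := by
    have : Nonempty (Fin k) := ⟨⟨0, hk⟩⟩
    exact Finset.univ_nonempty.ne_empty
  rw [if_neg h4, sub_zero]
  simp only [Finset.compl_eq_empty_iff]

section
variable {F : Type*} [Field F] [Fintype F] {n m : ℕ} (f : Fin m → MvPolynomial (Fin n) F)

open Classical in
/-- the number of roots of `∑ i, f_i(x) T ^ i` -/
noncomputable def rr (x : Fin n → F) : ℕ := (Finset.univ.filter fun y : F => (up f x).eval y = 0).card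

open Classical in
theorem rr_zero (x : Fin n → F) (h : ∀ i, eval x (f i) = 0) : rr f x = Fintype.card F := by
  unfold rr
  rw [(up_eq_zero f x).2 h]
  simp

open Classical in
theorem rr_le (x : Fin n → F) (h : ¬ ∀ i, eval x (f i) = 0) : rr f x ≤ m - 1 := by
  have h0 : up f x ≠ 0 := fun h' => h ((up_eq_zero f x).1 h')
  unfold rr
  refine le_trans ?_ (up_natDegree f x)
  refine le_trans ?_ (Polynomial.card_roots' (up f x))
  refine le_trans (Finset.card_le_card ?_) (Multiset.toFinset_card_le _)
  intro y hy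
  rw [Finset.mem_filter] at hy
  rw [Multiset.mem_toFinset, Polynomial.mem_roots h0]
  exact hy.2

open Classical in
/-- the number of `(x, y)` with all `∑ i, f_i(x) y_j ^ i = 0` -/
theorem card_all (k : ℕ) :
    (Finset.univ.filter fun w : (Fin n → F) × (Fin k → F) =>
      ∀ j, (up f w.1).eval (w.2 j) = 0).card = ∑ x : Fin n → F, rr f x ^ k := by
  have h1 : (Finset.univ.filter fun w : (Fin n → F) × (Fin k → F) =>
      ∀ j, (up f w.1).eval (w.2 j) = 0).card =
      ∑ x : Fin n → F, (Finset.univ.filter fun y : Fin k → F =>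
        ∀ j, (up f x).eval (y j) = 0).card := by
    rw [Finset.card_filter, Fintype.sum_prod_type]
    refine Finset.sum_congr rfl fun x _ => ?_
    rw [Finset.card_filter]
  rw [h1]
  refine Finset.sum_congr rfl fun x _ => ?_
  have h2 : (Finset.univ.filter fun y : Fin k → F => ∀ j, (up f x).eval (y j) = 0) =
      Fintype.piFinset fun _ : Fin k => Finset.univ.filter fun y : F => (up f x).eval y = 0 := by
    ext y
    simp
  rw [h2, Fintype.card_piFinset, Finset.prod_const, Finset.card_univ, Fintype.card_fin]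
  rfl

open Classical in
theorem numZero_eq (k : ℕ) (S : Finset (Fin k)) :
    numZero (single f k S) = (Finset.univ.filter fun w : (Fin n → F) × (Fin k → F) =>
      ∃ j ∈ S, (up f w.1).eval (w.2 j) = 0).card := by
  unfold numZero
  rw [Nat.card_eq_fintype_card, Fintype.card_subtype]
  refine Finset.card_bij' (fun z _ => (fun i => z (Sum.inl i), fun j => z (Sum.inr j)))
    (fun w _ => Sum.elim w.1 w.2) ?_ ?_ ?_ ?_
  · intro z hz
    rw [Finset.mem_filter] at hz ⊢
    refine ⟨Finset.mem_univ _, ?_⟩
    have hz' : z = Sum.elim (fun i => z (Sum.inl i)) (fun j => z (Sum.inr j)) := by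
      funext i
      cases i <;> rfl
    have h := hz.2
    rw [hz', eval_single, Finset.prod_eq_zero_iff] at h
    exact h
  · intro w hw
    rw [Finset.mem_filter] at hw ⊢
    refine ⟨Finset.mem_univ _, ?_⟩
    rw [eval_single, Finset.prod_eq_zero_iff]
    exact hw.2
  · intro z _
    funext i
    cases i <;> rfl
  · intro w _
    rfl

open Classical in
/-- the alternating sum counts the points where all factors vanish -/
theorem alt_sum (k : ℕ) (hk : 0 < k) :
    ∑ S ∈ (Finset.univ : Finset (Finset (Fin k))).erase ∅,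
      (-1 : ℤ) ^ (S.card + 1) * (numZero (single f k S) : ℤ) = ∑ x : Fin n → F, (rr f x : ℤ) ^ k := by
  have h1 : ∀ S : Finset (Fin k), ((numZero (single f k S) : ℕ) : ℤ) =
      ∑ w : (Fin n → F) × (Fin k → F), if ∃ j ∈ S, (up f w.1).eval (w.2 j) = 0 then 1 else 0 := by
    intro S
    rw [numZero_eq, Finset.card_filter]
    push_cast
    rfl
  rw [Finset.sum_congr rfl fun S _ => by rw [h1 S, Finset.mul_sum], Finset.sum_comm]
  have h2 : ∀ w : (Fin n → F) × (Fin k → F),
      ∑ S ∈ (Finset.univ : Finset (Finset (Fin k))).erase ∅,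
        (-1 : ℤ) ^ (S.card + 1) * (if ∃ j ∈ S, (up f w.1).eval (w.2 j) = 0 then 1 else 0) =
      if ∀ j, (up f w.1).eval (w.2 j) = 0 then 1 else 0 := by
    intro w
    have h := incl_excl k hk (Finset.univ.filter fun j => (up f w.1).eval (w.2 j) = 0)
    simp only [Finset.mem_filter, Finset.mem_univ, true_and,
      Finset.eq_univ_iff_forall] at h
    convert h using 2
  rw [Finset.sum_congr rfl fun w _ => h2 w]
  have h3 := card_all f k
  rw [Finset.card_filter] at h3
  have h4 := congrArg (Nat.cast : ℕ → ℤ) h3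
  push_cast at h4
  exact h4

open Classical in
theorem numZeros_eq : numZeros f = (Finset.univ.filter fun x : Fin n → F =>
    ∀ i, eval x (f i) = 0).card := by
  unfold numZeros
  rw [Nat.card_eq_fintype_card, Fintype.card_subtype]

open Classical in
theorem lower (k : ℕ) : numZeros f * Fintype.card F ^ k ≤ ∑ x : Fin n → F, rr f x ^ k := by
  rw [numZeros_eq]
  have h1 : (Finset.univ.filter fun x : Fin n → F => ∀ i, eval x (f i) = 0).card *
      Fintype.card F ^ k = ∑ x ∈ Finset.univ.filter (fun x : Fin n → F => ∀ i, eval x (f i) = 0),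
        rr f x ^ k := by
    rw [← smul_eq_mul, ← Finset.sum_const]
    refine Finset.sum_congr rfl fun x hx => ?_
    rw [rr_zero f x (Finset.mem_filter.1 hx).2]
  rw [h1]
  exact Finset.sum_le_sum_of_subset (Finset.filter_subset _ _)

open Classical in
theorem upper (k : ℕ) : ∑ x : Fin n → F, rr f x ^ k ≤
    numZeros f * Fintype.card F ^ k + (m - 1) ^ k * Fintype.card F ^ n := by
  rw [numZeros_eq, ← Finset.sum_filter_add_sum_filter_not Finset.univ
    (fun x : Fin n → F => ∀ i, eval x (f i) = 0)]
  refine add_le_add ?_ ?_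
  · rw [← smul_eq_mul, ← Finset.sum_const]
    refine (Finset.sum_congr rfl fun x hx => ?_).le
    rw [rr_zero f x (Finset.mem_filter.1 hx).2]
  · refine (Finset.sum_le_card_nsmul _ _ ((m - 1) ^ k) fun x hx => ?_).trans ?_
    · exact Nat.pow_le_pow_left (rr_le f x (Finset.mem_filter.1 hx).2) k
    · rw [smul_eq_mul, mul_comm]
      refine Nat.mul_le_mul_left _ ?_
      refine (Finset.card_filter_le _ _).trans ?_
      rw [Finset.card_univ, Fintype.card_fun, Fintype.card_fin]

/-- the exact formula -/
theorem formula (k : ℕ) (hk : 0 < k) (hq : (m - 1) ^ k * Fintype.card F ^ n < Fintype.card F ^ k) :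
    ((numZeros f : ℕ) : ℤ) = (∑ S ∈ (Finset.univ : Finset (Finset (Fin k))).erase ∅,
      (-1 : ℤ) ^ (S.card + 1) * (numZero (single f k S) : ℤ)) / (Fintype.card F : ℤ) ^ k := by
  have h0 : ∑ S ∈ (Finset.univ : Finset (Finset (Fin k))).erase ∅,
      (-1 : ℤ) ^ (S.card + 1) * (numZero (single f k S) : ℤ) =
      ((∑ x : Fin n → F, rr f x ^ k : ℕ) : ℤ) := by
    rw [alt_sum f k hk]
    push_cast
    rfl
  rw [h0]
  have h1 : (∑ x : Fin n → F, rr f x ^ k) / Fintype.card F ^ k = numZeros f := by
    refine Nat.div_eq_of_lt_le (lower f k) ?_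
    refine (upper f k).trans_lt ?_
    rw [Nat.add_mul, Nat.one_mul]
    omega
  rw [← h1]
  push_cast
  rfl

end

/-- few points or the exact formula -/
theorem main (F : Type) [Field F] [Finite F] (n m d k : ℕ) (f : Fin m → MvPolynomial (Fin n) F)
    (hk : n < k) (hd : ∀ i, (f i).totalDegree ≤ d) :
    (∀ S : Finset (Fin k), (single f k S).totalDegree ≤ S.card * (d + (m - 1))) ∧
    (Nat.card (Fin n → F) ≤ (m - 1) ^ (k * n) ∨
      ((numZeros f : ℕ) : ℤ) = (∑ S ∈ (Finset.univ : Finset (Finset (Fin k))).erase ∅,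
        (-1 : ℤ) ^ (S.card + 1) * (numZero (single f k S) : ℤ)) / (Nat.card F : ℤ) ^ k) := by
  classical
  have : Fintype F := Fintype.ofFinite F
  refine ⟨totalDegree_single f k d hd, ?_⟩
  rw [Nat.card_eq_fintype_card, Nat.card_eq_fintype_card, Fintype.card_fun, Fintype.card_fin]
  by_cases hq : (m - 1) ^ k * Fintype.card F ^ n < Fintype.card F ^ k
  · exact Or.inr (formula f k (by omega) hq)
  · left
    rw [not_lt] at hq
    have hF : 0 < Fintype.card F := Fintype.card_pos
    have h1 : Fintype.card F ^ k = Fintype.card F ^ (k - n) * Fintype.card F ^ n := by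
      rw [← pow_add]
      congr 1
      omega
    rw [h1] at hq
    have h2 : Fintype.card F ^ (k - n) ≤ (m - 1) ^ k := Nat.le_of_mul_le_mul_right hq (pow_pos hF n)
    have h3 : Fintype.card F ≤ (m - 1) ^ k :=
      (Nat.le_self_pow (by omega) _).trans h2
    calc Fintype.card F ^ n ≤ ((m - 1) ^ k) ^ n := Nat.pow_le_pow_left h3 n
      _ = (m - 1) ^ (k * n) := (pow_mul _ _ _).symm

end Pool.Agent.Helper28.PCF
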